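import Pool.Agent.helper78.EQ.Spec
import Pool.Agent.helper97.LD.F0
import Pool.Agent.helper30.LD.J0

/-!
# Project EQ, module I7
-/

set_option autoImplicit false

open Complex MeasureTheory Set Metric

namespace Pool.Agent.EQ

open Pool.Agent.helper6.LD

theorem helper84_Sm_le (a : ℕ → ℂ) (A ε σ T H : ℝ) (hH : 0 ≤ H) : Sm a A ε σ T H ≤ H := by
  unfold Sm
  have h1 : volume {t : ℝ | T ≤ t ∧ t ≤ T + H ∧ ∃ N : ℝ, 1 ≤ N ∧ N ≤ (T + H + 2) ^ A ∧
      N ^ σ * (T + H + 2) ^ ε ≤ ‖S a N t‖} ≤ ENNReal.ofReal H := by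
    refine (measure_mono (t := Icc T (T + H)) (fun t ht => ⟨ht.1, ht.2.1⟩)).trans ?_
    rw [Real.volume_Icc, add_sub_cancel_left]
  exact ENNReal.toReal_le_of_le_ofReal hH h1

theorem helper84_zer_bounded (σ T H : ℝ) :
    Bornology.IsBounded {ρ : ℂ | (σ ≤ ρ.re ∧ T < ρ.im ∧ ρ.im ≤ T + H) ∧ ρ.re ≤ 1} := by
  have h : Bornology.IsBounded ((Set.Icc σ 1) ×ℂ (Set.Icc T (T + H))) :=
    (Metric.isBounded_Icc _ _).reProdIm (Metric.isBounded_Icc _ _)
  refine h.subset ?_
  rintro ρ ⟨⟨h1, h2, h3⟩, h4⟩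
  rw [Complex.mem_reProdIm]
  exact ⟨⟨h1, h4⟩, ⟨h2.le, h3⟩⟩

/-- the distinct zeros counted by `Zer` form a finite set with at most `Zer` elements -/
theorem helper84_zeros (ε σ T H : ℝ) : ∃ Z : Finset ℂ, ((Z.card : ℕ) : ℝ) ≤ Zer ε σ T H ∧
    ∀ ρ : ℂ, riemannZeta ρ = 0 → σ ≤ ρ.re → T < ρ.im → ρ.im ≤ T + H → ρ ∈ Z := by
  have hb := helper84_zer_bounded σ T H
  refine ⟨(zeros_finite hb).toFinset, ?_, ?_⟩
  · unfold Zer
    have h1 : zc {ρ : ℂ | σ ≤ ρ.re ∧ T < ρ.im ∧ ρ.im ≤ T + H} =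
        zc {ρ : ℂ | (σ ≤ ρ.re ∧ T < ρ.im ∧ ρ.im ≤ T + H) ∧ ρ.re ≤ 1} := by
      apply h30_zc_congr
      intro ρ hρ
      exact ⟨fun h => ⟨h, (h97_re_lt hρ).le⟩, fun h => h.1⟩
    rw [h1, h30_zc_eq hb]
    have h2 : (zeros_finite hb).toFinset.card ≤
        ∑ ρ ∈ (zeros_finite hb).toFinset, analyticOrderNatAt riemannZeta ρ := by
      rw [Finset.card_eq_sum_ones]
      apply Finset.sum_le_sum
      intro ρ hρ
      rw [Set.Finite.mem_toFinset] at hρ
      exact order_pos hρ.2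
    exact_mod_cast h2
  · intro ρ h0 h1 h2 h3
    rw [Set.Finite.mem_toFinset]
    exact ⟨⟨⟨h1, h2, h3⟩, (h97_re_lt h0).le⟩, h0⟩

/-- measure of a set covered by an interval and by intervals about finitely many points -/
theorem helper84_cover (E : Set ℝ) (p q : ℝ) (Z : Finset ℂ) (hp : 0 ≤ p) (hq : 0 ≤ q)
    (h : ∀ t ∈ E, (0 ≤ t ∧ t ≤ p) ∨ ∃ ρ ∈ Z, |ρ.im - t| ≤ q) :
    (volume E).toReal ≤ p + 2 * q * (Z.card : ℝ) := by
  have hsub : E ⊆ Icc 0 p ∪ ⋃ ρ ∈ Z, Icc (ρ.im - q) (ρ.im + q) := by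
    intro t ht
    rcases h t ht with h1 | ⟨ρ, hρ, h1⟩
    · exact Or.inl h1
    · refine Or.inr ?_
      rw [mem_iUnion₂]
      refine ⟨ρ, hρ, ?_⟩
      rw [abs_le] at h1
      constructor <;> linarith [h1.1, h1.2]
  have h1 : volume E ≤ ENNReal.ofReal p + ∑ ρ ∈ Z, ENNReal.ofReal (2 * q) := by
    refine (measure_mono hsub).trans ((measure_union_le _ _).trans ?_)
    refine add_le_add ?_ ?_
    · rw [Real.volume_Icc, sub_zero]
    · refine (measure_biUnion_finset_le Z _).trans ?_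
      apply Finset.sum_le_sum
      intro ρ _
      rw [Real.volume_Icc]
      apply ENNReal.ofReal_le_ofReal
      linarith
  have h2 : ENNReal.ofReal p + ∑ ρ ∈ Z, ENNReal.ofReal (2 * q) =
      ENNReal.ofReal (p + 2 * q * (Z.card : ℝ)) := by
    rw [Finset.sum_const, nsmul_eq_mul, ENNReal.ofReal_add hp (by positivity),
      mul_comm (2 * q) (Z.card : ℝ), ENNReal.ofReal_mul (Nat.cast_nonneg _),
      ENNReal.ofReal_natCast]
  rw [h2] at h1
  exact ENNReal.toReal_le_of_le_ofReal (by positivity) h1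

theorem I7 (hTRF : TRF_stmt) : I7_stmt := by
  intro a θ b A hF hθ hb hA hZ
  refine hTRF θ b (fun _ => 0) (Sm a A) {Zer} hθ hb ?_ ?_ ?_ ?_
  · intro σ h1 h2
    exact hb.one.trans (hb.anti ⟨h1, h2⟩ ⟨by norm_num, le_refl _⟩ h2)
  · intro ε η hε hη
    refine ⟨1, one_pos, ?_⟩
    intro σ T H h1 h2 h3 h4
    refine (helper84_Sm_le a A ε σ T H (by linarith)).trans ?_
    have h5 : (1 : ℝ) ≤ (T + H + 2) ^ η := Real.one_le_rpow (by linarith) hη.le
    nlinarith
  · intro ε δ η hε hδ hδ4 hη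
    obtain ⟨X₀, hX₀, hX⟩ := hF δ ε A hδ hδ4 hε hA
    refine ⟨Zer, rfl, η, X₀ + 3 + 16 / η ^ 2, hη, le_refl _, by positivity, ?_⟩
    intro σ T H hσ hσ1 hT hH
    set X : ℝ := T + H + 2 with hXd
    set L : ℝ := Real.log X with hLd
    have hX3 : 3 ≤ X := by rw [hXd]; linarith
    have hX1 : (1 : ℝ) ≤ X ^ η := Real.one_le_rpow (by linarith) hη.le
    have hL0 : 0 ≤ L := Real.log_nonneg (by linarith)
    have hL1 : 1 ≤ L := by
      rw [hLd, Real.le_log_iff_exp_le (by linarith)]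
      linarith [Real.exp_one_lt_d9]
    have hLs : 4 * L ^ 2 ≤ 16 / η ^ 2 * X ^ η := by
      have h1 : L ≤ X ^ (η / 2) / (η / 2) := Real.log_le_rpow_div (by linarith) (by positivity)
      have h2 : L ^ 2 ≤ (X ^ (η / 2) / (η / 2)) ^ 2 := pow_le_pow_left₀ hL0 h1 2
      have h3 : (X ^ (η / 2) / (η / 2)) ^ 2 = 4 / η ^ 2 * X ^ η := by
        have h4 : X ^ (η / 2) * X ^ (η / 2) = X ^ η := by
          rw [← Real.rpow_add (by linarith), add_halves]
        rw [← h4]
        field_simp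
        ring
      rw [h3] at h2
      have h5 : 16 / η ^ 2 * X ^ η = 4 * (4 / η ^ 2 * X ^ η) := by ring
      rw [h5]
      linarith
    have hC0 : 0 ≤ 16 / η ^ 2 := by positivity
    refine ⟨max (T - 2 * L ^ 2 - 1) 0, H + 4 * L ^ 2 + 2, le_max_right _ _, ?_, ?_, ?_, ?_⟩
    · exact max_le (by nlinarith) hT
    · nlinarith
    · have h1 : 16 / η ^ 2 * X ^ η ≤ 16 / η ^ 2 * X ^ η * H := by
        have : 0 ≤ 16 / η ^ 2 * X ^ η := by positivity
        nlinarith
      have h2 : H + 2 ≤ 3 * X ^ η * H := by nlinarith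
      have h3 : 0 ≤ X₀ * X ^ η * H := by positivity
      nlinarith
    · intro B hB hG
      rw [Real.rpow_zero]
      rcases lt_or_ge X X₀ with hlt | hge
      · refine (helper84_Sm_le a A ε σ T H (by linarith)).trans ?_
        have h1 : H ≤ X₀ := by rw [hXd] at hlt; linarith
        have h2 : X₀ ≤ (X₀ + 3 + 16 / η ^ 2) * X ^ η := by nlinarith
        have h3 : (X₀ + 3 + 16 / η ^ 2) * X ^ η ≤ (X₀ + 3 + 16 / η ^ 2) * X ^ η * (1 + B) := by
          have : 0 ≤ (X₀ + 3 + 16 / η ^ 2) * X ^ η := by positivity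
          nlinarith
        linarith
      · obtain ⟨Z, hZc, hZm⟩ := helper84_zeros η (σ - δ) (max (T - 2 * L ^ 2 - 1) 0)
          (H + 4 * L ^ 2 + 2)
        have hZB : ((Z.card : ℕ) : ℝ) ≤ B := hZc.trans (hG (σ - δ) (le_refl _) (by linarith))
        have hcov : Sm a A ε σ T H ≤ 3 * L ^ 2 + 2 * (2 * L ^ 2) * (Z.card : ℝ) := by
          unfold Sm
          refine helper84_cover _ (3 * L ^ 2) (2 * L ^ 2) Z (by positivity) (by positivity) ?_
          rintro t ⟨ht1, ht2, N, hN1, hN2, hN3⟩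
          rcases le_or_gt t (3 * L ^ 2) with h1 | h1
          · exact Or.inl ⟨by linarith, h1⟩
          · refine Or.inr ?_
            by_contra hcon
            push Not at hcon
            have h2 := hX X σ t hge hσ hσ1 h1.le (by rw [hXd]; linarith) (by
              intro ρ h0 hre him
              rw [← hLd] at him
              have h3 := abs_le.1 him
              refine absurd him (not_le.2 (hcon ρ (hZm ρ h0 hre ?_ ?_)))
              · rw [max_lt_iff]
                constructor <;> nlinarith [h3.1, h3.2]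
              · have h4 := le_max_left (T - 2 * L ^ 2 - 1) 0
                nlinarith [h3.1, h3.2]) N hN1 hN2
            exact absurd hN3 (not_le.2 h2)
        refine hcov.trans ?_
        have h1 : 3 * L ^ 2 + 2 * (2 * L ^ 2) * (Z.card : ℝ) ≤ 4 * L ^ 2 * (1 + B) := by
          have h2 : 2 * (2 * L ^ 2) * (Z.card : ℝ) ≤ 4 * L ^ 2 * B := by
            have : 0 ≤ 4 * L ^ 2 := by positivity
            nlinarith
          nlinarith [sq_nonneg L]
        refine h1.trans ?_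
        have h2 : 4 * L ^ 2 * (1 + B) ≤ 16 / η ^ 2 * X ^ η * (1 + B) :=
          mul_le_mul_of_nonneg_right hLs (by linarith)
        refine h2.trans ?_
        apply mul_le_mul_of_nonneg_right _ (by linarith)
        apply mul_le_mul_of_nonneg_right _ (by linarith)
        linarith
  · intro G hG
    rw [mem_singleton_iff] at hG
    rw [hG]
    exact hZ

end Pool.Agent.EQ
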